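import Pool.Agent.Y51.FP.Fin

/-!
# Automorphism groups of free polynilpotent groups are not finitely generated

`gam A n` is the term of index `n + 1` of the lower central series of a subgroup `A`
(`gam A 0 = A`, `gam A (n + 1) = [gam A n, A]`), and `GG ⊤ [c_k, ..., c_1]` is the iterated lower
central series `γ_{c_k + 1}(... γ_{c_1 + 1}(F) ...)`, so that `F ⧸ GG ⊤ [c_k, ..., c_1]` is the
free polynilpotent group of class row `(c_1, ..., c_k)`; for `c_1 = ... = c_k = 1` it is the free
solvable group of derived length `k`.

The automorphism group of the free solvable group of rank `r ≥ 3` and derived length `d ≥ 3` is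
not finitely generated. More generally this holds for the free polynilpotent groups of rank
`r ≥ 3` of all class rows with at least three entries, and for all relatively free groups
`F_r / V` where `V` lies between `[W, W]` and some term of the lower central series of `W`, and
`W` is the fully invariant subgroup belonging to a class row with at least two entries. In this
generality, no finitely generated group of automorphisms of `F_r / V` contains all automorphisms
which are trivial modulo `W / V`.
-/

set_option autoImplicit false

namespace Pool.Agent.Results.MP_4aafa9_al.FreePolynilpotent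

open Pool.Agent.Y51.FP

/-- **Main theorem.** Let `r ≥ 3` and let `F` be the free group of rank `r`.

(1) For all `d ≥ 3` the automorphism group of the free solvable group `F / F^(d)` is not finitely
generated.

(2) For every class row with at least three entries, all of them positive, the automorphism group
of the free polynilpotent group of rank `r` is not finitely generated.

(3) Let `W` be the iterated lower central subgroup of `F` for a class row with at least two
entries, all of them positive, and let `V` be a fully invariant subgroup of `F` with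
`γ_{n+1}(W) ≤ V ≤ [W, W]` for some `n`. Then no finitely generated group `H` of automorphisms of
`F / V` contains all automorphisms of `F / V` which are trivial modulo `W`. -/
theorem result (r : ℕ) (hr : 3 ≤ r) :
    (∀ d : ℕ, 3 ≤ d →
      ¬ Group.FG (MulAut (FreeGroup (Fin r) ⧸ derivedSeries (FreeGroup (Fin r)) d))) ∧
    (∀ cs : List ℕ, 3 ≤ cs.length → (∀ c ∈ cs, 1 ≤ c) →
      ¬ Group.FG (MulAut (FreeGroup (Fin r) ⧸ GG (⊤ : Subgroup (FreeGroup (Fin r))) cs))) ∧
    (∀ cs : List ℕ, 2 ≤ cs.length → (∀ c ∈ cs, 1 ≤ c) →
      ∀ (V : Subgroup (FreeGroup (Fin r))) [V.Normal],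
        (∀ f : FreeGroup (Fin r) →* FreeGroup (Fin r), V ≤ V.comap f) →
        ∀ n : ℕ, gam (GG (⊤ : Subgroup (FreeGroup (Fin r))) cs) n ≤ V →
          V ≤ gam (GG (⊤ : Subgroup (FreeGroup (Fin r))) cs) 1 →
          ∀ H : Subgroup (MulAut (FreeGroup (Fin r) ⧸ V)), H.FG →
            ∃ φ : MulAut (FreeGroup (Fin r) ⧸ V), φ ∉ H ∧
              ∀ w : FreeGroup (Fin r), ∃ u ∈ GG (⊤ : Subgroup (FreeGroup (Fin r))) cs,
                φ (QuotientGroup.mk w) = QuotientGroup.mk (w * u)) := by
  refine ⟨?_, ?_, ?_⟩
  · intro d hd hfg
    obtain ⟨e, rfl⟩ : ∃ e, d = e + 1 := ⟨d - 1, by omega⟩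
    have hW : gam (GG (⊤ : Subgroup (FreeGroup (Fin r))) (List.replicate e 1)) 1 =
        derivedSeries (FreeGroup (Fin r)) (e + 1) := by
      rw [← derived_eq, gam_one, derivedSeries_succ]
    obtain ⟨φ, hφ, _⟩ := main_fg r hr (List.replicate e 1) (by rw [List.length_replicate]; omega)
      (fun c hc => (List.eq_of_mem_replicate hc).ge)
      (derivedSeries (FreeGroup (Fin r)) (e + 1))
      (fun f w hw => Pool.Agent.TH79.FS.mem_derived_of_hom f hw) 1 hW.le hW.ge ⊤
      (Group.fg_def.1 hfg)
    exact hφ (Subgroup.mem_top φ)
  · intro cs hlen hpos hfg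
    obtain ⟨c, cs, rfl⟩ : ∃ c l, cs = c :: l := by
      cases cs with
      | nil => simp at hlen
      | cons c l => exact ⟨c, l, rfl⟩
    obtain ⟨φ, hφ, _⟩ := main_fg r hr cs (by rw [List.length_cons] at hlen; omega)
      (fun d hd => hpos d (List.mem_cons_of_mem c hd))
      (GG (⊤ : Subgroup (FreeGroup (Fin r))) (c :: cs))
      (fun f w hw => mem_GG_of_hom f hw) c le_rfl (gam_anti _ (hpos c (by simp))) ⊤
      (Group.fg_def.1 hfg)
    exact hφ (Subgroup.mem_top φ)
  · intro cs hlen hpos V _ hfi n hn hV H hH
    exact main_fg r hr cs hlen hpos V hfi n hn hV H hH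

end Pool.Agent.Results.MP_4aafa9_al.FreePolynilpotent
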